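import Pool.Agent.Helper61.QT.GoalsP

/-! # Project QT+, packet P-DIV: division by `sin` and `cos`

The lemmas on parametric integrals are a copy of `Pool/Agent/Helper75/AB/PARI.lean`. -/

set_option autoImplicit false

open MeasureTheory Set Filter Topology
open scoped ContDiff

noncomputable section

namespace Pool.Agent.Helper97.QT

/-- Local uniform bound near a slice `{x₀} × [a,b]`. -/
theorem pari_bound {E G : Type} [NormedAddCommGroup E] [NormedSpace ℝ E]
    [NormedAddCommGroup G] {U : Set E} {F : E × ℝ → G} (a b : ℝ) (hU : IsOpen U)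
    (hF : ContinuousOn F (U ×ˢ (univ : Set ℝ))) {x₀ : E} (hx₀ : x₀ ∈ U) :
    ∃ C : ℝ, ∀ᶠ x in 𝓝 x₀, x ∈ U ∧ ∀ t ∈ uIcc a b, ‖F (x, t)‖ ≤ C := by
  have hO : IsOpen (U ×ˢ (univ : Set ℝ)) := hU.prod isOpen_univ
  have hc : ContinuousOn (fun t : ℝ => F (x₀, t)) (uIcc a b) := by
    refine hF.comp (by fun_prop) ?_
    intro t _
    exact ⟨hx₀, mem_univ _⟩
  obtain ⟨C, hC⟩ := isCompact_uIcc.exists_bound_of_continuousOn hc
  refine ⟨C + 1, ?_⟩
  have h1 : ∀ᶠ x in 𝓝 x₀, ∀ t ∈ uIcc a b, ‖F (x, t)‖ ≤ C + 1 := by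
    refine isCompact_uIcc.eventually_forall_of_forall_eventually ?_
    intro t ht
    have hct : ContinuousAt F (x₀, t) := hF.continuousAt (hO.mem_nhds ⟨hx₀, mem_univ _⟩)
    have h2 : ContinuousAt (fun z : E × ℝ => ‖F z‖) (x₀, t) := hct.norm
    have h3 : ‖F (x₀, t)‖ < C + 1 := by
      have := hC t ht
      linarith
    have h4 : ∀ᶠ z in 𝓝 (x₀, t), ‖F z‖ < C + 1 := h2.eventually_lt_const h3
    filter_upwards [h4] with z hz
    exact hz.le
  filter_upwards [h1, hU.mem_nhds hx₀] with x hx hxU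
  exact ⟨hxU, hx⟩

theorem pari_slice {E G : Type} [NormedAddCommGroup E] [NormedSpace ℝ E]
    [NormedAddCommGroup G] {U : Set E} {F : E × ℝ → G}
    (hF : ContinuousOn F (U ×ˢ (univ : Set ℝ))) {x : E} (hx : x ∈ U) :
    Continuous (fun t : ℝ => F (x, t)) := by
  rw [← continuousOn_univ]
  refine hF.comp (by fun_prop) ?_
  intro t _
  exact ⟨hx, mem_univ _⟩

theorem pari_cont {E G : Type} [NormedAddCommGroup E] [NormedSpace ℝ E]
    [NormedAddCommGroup G] [NormedSpace ℝ G] {U : Set E} {F : E × ℝ → G} (a b : ℝ)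
    (hU : IsOpen U) (hF : ContinuousOn F (U ×ˢ (univ : Set ℝ))) :
    ContinuousOn (fun x => ∫ θ in a..b, F (x, θ)) U := by
  intro x₀ hx₀
  apply ContinuousAt.continuousWithinAt
  obtain ⟨C, hC⟩ := pari_bound a b hU hF hx₀
  refine intervalIntegral.continuousAt_of_dominated_interval (bound := fun _ => C) ?_ ?_ ?_ ?_
  · filter_upwards [hC] with x hx
    exact (pari_slice hF hx.1).aestronglyMeasurable
  · filter_upwards [hC] with x hx
    refine Eventually.of_forall fun t ht => ?_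
    exact hx.2 t (uIoc_subset_uIcc ht)
  · exact intervalIntegrable_const
  · refine Eventually.of_forall fun t _ => ?_
    have hO : IsOpen (U ×ˢ (univ : Set ℝ)) := hU.prod isOpen_univ
    have hct : ContinuousAt F (x₀, t) := hF.continuousAt (hO.mem_nhds ⟨hx₀, mem_univ _⟩)
    exact ContinuousAt.comp (f := fun x : E => (x, t)) (g := F) (x := x₀) hct (by fun_prop)

/-- the partial derivative in the first variable. -/
def pD {E G : Type} [NormedAddCommGroup E] [NormedSpace ℝ E]
    [NormedAddCommGroup G] [NormedSpace ℝ G] (F : E × ℝ → G) : E × ℝ → (E →L[ℝ] G) :=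
  fun z => (fderiv ℝ F z).comp (ContinuousLinearMap.inl ℝ E ℝ)

theorem pari_deriv {E G : Type} [NormedAddCommGroup E] [NormedSpace ℝ E]
    [NormedAddCommGroup G] [NormedSpace ℝ G] {U : Set E} {F : E × ℝ → G} (a b : ℝ)
    (hU : IsOpen U) (hF : ContDiffOn ℝ 1 F (U ×ˢ (univ : Set ℝ))) {x₀ : E} (hx₀ : x₀ ∈ U) :
    HasFDerivAt (fun x => ∫ θ in a..b, F (x, θ)) (∫ θ in a..b, pD F (x₀, θ)) x₀ := by
  have hO : IsOpen (U ×ˢ (univ : Set ℝ)) := hU.prod isOpen_univ
  have hcF : ContinuousOn F (U ×ˢ (univ : Set ℝ)) := hF.continuousOn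
  have hcD : ContinuousOn (pD F) (U ×ˢ (univ : Set ℝ)) := by
    have h1 : ContinuousOn (fderiv ℝ F) (U ×ˢ (univ : Set ℝ)) :=
      hF.continuousOn_fderiv_of_isOpen hO le_rfl
    exact h1.clm_comp continuousOn_const
  obtain ⟨C, hC⟩ := pari_bound a b hU hcD hx₀
  refine intervalIntegral.hasFDerivAt_integral_of_dominated_of_fderiv_le
    (F := fun x t => F (x, t)) (F' := fun x t => pD F (x, t)) (bound := fun _ => C)
    (s := {x | x ∈ U ∧ ∀ t ∈ uIcc a b, ‖pD F (x, t)‖ ≤ C}) hC ?_ ?_ ?_ ?_ ?_ ?_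
  · filter_upwards [hC] with x hx
    exact (pari_slice hcF hx.1).aestronglyMeasurable
  · exact (pari_slice hcF hx₀).intervalIntegrable _ _
  · exact (pari_slice hcD hx₀).aestronglyMeasurable
  · refine Eventually.of_forall fun t ht x hx => ?_
    exact hx.2 t (uIoc_subset_uIcc ht)
  · exact intervalIntegrable_const
  · refine Eventually.of_forall fun t _ x hx => ?_
    have hd : HasFDerivAt F (fderiv ℝ F (x, t)) (x, t) := by
      have : DifferentiableAt ℝ F (x, t) :=
        (hF.differentiableOn one_ne_zero).differentiableAt (hO.mem_nhds ⟨hx.1, mem_univ _⟩)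
      exact this.hasFDerivAt
    have hi : HasFDerivAt (fun x : E => (x, t)) (ContinuousLinearMap.inl ℝ E ℝ) x :=
      hasFDerivAt_prodMk_left x t
    exact HasFDerivAt.comp (f := fun x : E => (x, t)) (g := F) x hd hi

/-- parameter integrals of `C¹` functions are `C¹`. -/
theorem pari_one {E G : Type} [NormedAddCommGroup E] [NormedSpace ℝ E]
    [NormedAddCommGroup G] [NormedSpace ℝ G] (a b : ℝ) {F : E × ℝ → G}
    (hF : ContDiff ℝ 1 F) : ContDiff ℝ 1 (fun x => ∫ θ in a..b, F (x, θ)) := by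
  have hF' : ContDiffOn ℝ 1 F ((univ : Set E) ×ˢ (univ : Set ℝ)) := hF.contDiffOn
  have hder : ∀ x : E, HasFDerivAt (fun x => ∫ θ in a..b, F (x, θ))
      (∫ θ in a..b, pD F (x, θ)) x := fun x => pari_deriv a b isOpen_univ hF' (mem_univ x)
  rw [contDiff_one_iff_fderiv]
  refine ⟨fun x => (hder x).differentiableAt, ?_⟩
  have h1 : fderiv ℝ (fun x => ∫ θ in a..b, F (x, θ)) = fun x => ∫ θ in a..b, pD F (x, θ) := by
    funext x
    exact (hder x).fderiv
  rw [h1]
  have hcD : ContinuousOn (pD F) ((univ : Set E) ×ˢ (univ : Set ℝ)) := by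
    have h2 : Continuous (fderiv ℝ F) := hF.continuous_fderiv one_ne_zero
    exact (h2.clm_comp continuous_const).continuousOn
  have h3 := pari_cont a b isOpen_univ hcD
  rwa [continuousOn_univ] at h3

/-- Hadamard: division by `r - c`. -/
theorem had {f : ℝ × ℝ → ℝ} (hf : ContDiff ℝ 2 f) (c : ℝ) (h0 : ∀ s, f (c, s) = 0) :
    ∃ h : ℝ × ℝ → ℝ, ContDiff ℝ 1 h ∧ ∀ z, f z = (z.1 - c) * h z := by
  set F : (ℝ × ℝ) × ℝ → ℝ := fun w => fderiv ℝ f (c + w.2 * (w.1.1 - c), w.1.2) (1, 0) with hFdef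
  have hfd : ContDiff ℝ 1 (fderiv ℝ f) := hf.fderiv_right (m := 1) (by norm_num)
  have hF : ContDiff ℝ 1 F := by
    have h1 : ContDiff ℝ 1 (fun w : (ℝ × ℝ) × ℝ => (c + w.2 * (w.1.1 - c), w.1.2)) := by
      fun_prop
    exact (hfd.comp h1).clm_apply contDiff_const
  refine ⟨fun z => ∫ t in (0 : ℝ)..1, F (z, t), pari_one 0 1 hF, fun z => ?_⟩
  have hd : ∀ t : ℝ, HasDerivAt (fun t : ℝ => f (c + t * (z.1 - c), z.2))
      ((z.1 - c) * F (z, t)) t := by
    intro t
    have h1 : HasFDerivAt f (fderiv ℝ f (c + t * (z.1 - c), z.2)) (c + t * (z.1 - c), z.2) :=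
      (hf.differentiable (by norm_num) _).hasFDerivAt
    have h2 : HasDerivAt (fun t : ℝ => ((c + t * (z.1 - c), z.2) : ℝ × ℝ))
        (z.1 - c, 0) t := by
      have h3 : HasDerivAt (fun t : ℝ => c + t * (z.1 - c)) (z.1 - c) t := by
        simpa using ((hasDerivAt_id t).mul_const (z.1 - c)).const_add c
      exact h3.prodMk (hasDerivAt_const t z.2)
    have h4 := h1.comp_hasDerivAt t h2
    have h5 : (fderiv ℝ f (c + t * (z.1 - c), z.2)) (z.1 - c, 0) = (z.1 - c) * F (z, t) := by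
      have h6 : ((z.1 - c, 0) : ℝ × ℝ) = (z.1 - c) • ((1, 0) : ℝ × ℝ) := by
        ext <;> simp
      rw [h6, map_smul, smul_eq_mul]
    rw [← h5]
    exact h4
  have hcont : Continuous (fun t : ℝ => (z.1 - c) * F (z, t)) := by
    have : Continuous F := hF.continuous
    fun_prop
  have hint := intervalIntegral.integral_eq_sub_of_hasDerivAt (a := 0) (b := 1)
    (fun t _ => hd t) (hcont.intervalIntegrable 0 1)
  rw [intervalIntegral.integral_const_mul] at hint
  rw [hint]
  have e1 : c + 1 * (z.1 - c) = z.1 := by ring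
  have e2 : c + 0 * (z.1 - c) = c := by ring
  rw [e1, e2, h0, sub_zero]

/-- `sin r = r k(r)`. -/
theorem sinc_exists : ∃ k : ℝ → ℝ, ContDiff ℝ 1 k ∧ (∀ r, Real.sin r = r * k r) ∧ k 0 = 1 := by
  obtain ⟨h, hh, he⟩ := had (f := fun z : ℝ × ℝ => Real.sin z.1) (by fun_prop) 0
    (fun s => by simp)
  refine ⟨fun r => h (r, 0), hh.comp (by fun_prop), fun r => ?_, ?_⟩
  · have := he (r, 0)
    simpa using this
  · have hk : ContDiff ℝ 1 (fun r : ℝ => h (r, 0)) := hh.comp (by fun_prop)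
    have h1 : HasDerivAt (fun r : ℝ => r * h (r, 0))
        (1 * h (0, 0) + 0 * deriv (fun r : ℝ => h (r, 0)) 0) 0 :=
      (hasDerivAt_id (0 : ℝ)).mul
        ((hk.differentiable one_ne_zero 0).hasDerivAt)
    have h2 : (fun r : ℝ => r * h (r, 0)) = Real.sin := by
      funext r
      have := he (r, 0)
      simpa using this.symm
    rw [h2] at h1
    have h3 := h1.unique (Real.hasDerivAt_sin 0)
    simpa using h3

theorem divsin {f : ℝ × ℝ → ℝ} (hf : ContDiff ℝ 2 f) (h0 : ∀ z : ℝ × ℝ, Real.sin z.1 = 0 → f z = 0) :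
    ∃ g : ℝ × ℝ → ℝ, ContDiff ℝ 1 g ∧ ∀ z, f z = Real.sin z.1 * g z := by
  classical
  obtain ⟨K, hK, hKs, hK0⟩ := sinc_exists
  set g : ℝ × ℝ → ℝ := fun z =>
    if Real.sin z.1 = 0 then fderiv ℝ f z (1, 0) / Real.cos z.1 else f z / Real.sin z.1 with hg
  refine ⟨g, ?_, fun z => ?_⟩
  · rw [contDiff_iff_contDiffAt]
    intro z₀
    by_cases hz : Real.sin z₀.1 = 0
    · obtain ⟨n, hn⟩ := Real.sin_eq_zero_iff.1 hz
      set c : ℝ := (n : ℝ) * Real.pi with hc
      have hsc : Real.sin c = 0 := by rw [hc]; exact Real.sin_int_mul_pi n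
      have hcc : Real.cos c ≠ 0 := by
        intro h
        have := Real.sin_sq_add_cos_sq c
        rw [hsc, h] at this
        norm_num at this
      obtain ⟨h, hh, he⟩ := had hf c (fun s => h0 (c, s) hsc)
      have hsin : ∀ r : ℝ, Real.sin r = Real.cos c * ((r - c) * K (r - c)) := by
        intro r
        rw [← hKs, Real.sin_sub, hsc, mul_zero, sub_zero]
        have := Real.sin_sq_add_cos_sq c
        rw [hsc] at this
        have h2 : Real.cos c * Real.cos c = 1 := by nlinarith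
        linear_combination (-Real.sin r) * h2
      have hcos2 : Real.cos c * Real.cos c = 1 := by
        have := Real.sin_sq_add_cos_sq c
        rw [hsc] at this
        nlinarith
      have hKc : ContDiff ℝ 1 (fun z : ℝ × ℝ => Real.cos c * K (z.1 - c)) := by
        have : ContDiff ℝ 1 (fun z : ℝ × ℝ => K (z.1 - c)) := hK.comp (by fun_prop)
        exact contDiff_const.mul this
      have hne : Real.cos c * K (z₀.1 - c) ≠ 0 := by
        rw [← hn, sub_self, hK0, mul_one]
        exact hcc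
      have hquot : ContDiffAt ℝ 1 (fun z : ℝ × ℝ => h z / (Real.cos c * K (z.1 - c))) z₀ :=
        hh.contDiffAt.div hKc.contDiffAt hne
      refine hquot.congr_of_eventuallyEq ?_
      have hev : ∀ᶠ z : ℝ × ℝ in 𝓝 z₀, Real.cos c * K (z.1 - c) ≠ 0 :=
        hKc.continuous.continuousAt.eventually_ne hne
      filter_upwards [hev] with z hzn
      by_cases hzc : z.1 = c
      · have hs : Real.sin z.1 = 0 := by rw [hzc]; exact hsc
        have hd : fderiv ℝ f z (1, 0) = h z := by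
          have hzf : f = fun z : ℝ × ℝ => (z.1 - c) * h z := funext he
          have h1 : HasFDerivAt (fun z : ℝ × ℝ => z.1 - c) (ContinuousLinearMap.fst ℝ ℝ ℝ) z :=
            (hasFDerivAt_fst (𝕜 := ℝ) (p := z)).sub_const c
          have h2 : HasFDerivAt h (fderiv ℝ h z) z := (hh.differentiable one_ne_zero z).hasFDerivAt
          have h3 := (h1.mul h2).fderiv
          have h4 : fderiv ℝ f z = fderiv ℝ (fun z : ℝ × ℝ => (z.1 - c) * h z) z := by
            rw [← hzf]
          have h5 : (fun z : ℝ × ℝ => z.1 - c) * h = fun z : ℝ × ℝ => (z.1 - c) * h z := rfl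
          rw [h4, ← h5, h3]
          simp [hzc]
        simp only [hg]
        rw [if_pos hs, hd, hzc, sub_self, hK0, mul_one]
      · have hz1 : z.1 - c ≠ 0 := sub_ne_zero.2 hzc
        have hKz : K (z.1 - c) ≠ 0 := fun h => hzn (by rw [h, mul_zero])
        have hs : Real.sin z.1 ≠ 0 := by
          rw [hsin]
          exact mul_ne_zero hcc (mul_ne_zero hz1 hKz)
        simp only [hg]
        rw [if_neg hs, he z, hsin z.1]
        field_simp
    · have hev : ∀ᶠ z : ℝ × ℝ in 𝓝 z₀, Real.sin z.1 ≠ 0 := by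
        have hc : Continuous (fun z : ℝ × ℝ => Real.sin z.1) := by fun_prop
        exact hc.continuousAt.eventually_ne hz
      have hquot : ContDiffAt ℝ 1 (fun z : ℝ × ℝ => f z / Real.sin z.1) z₀ := by
        have h1 : ContDiffAt ℝ 1 f z₀ := (hf.of_le (by norm_num)).contDiffAt
        have h2 : ContDiff ℝ 1 (fun z : ℝ × ℝ => Real.sin z.1) := by fun_prop
        exact h1.div h2.contDiffAt hz
      refine hquot.congr_of_eventuallyEq ?_
      filter_upwards [hev] with z hzn
      simp only [hg]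
      rw [if_neg hzn]
  · by_cases hz : Real.sin z.1 = 0
    · rw [h0 z hz, hz, zero_mul]
    · simp only [hg]
      rw [if_neg hz]
      field_simp

theorem divcos {f : ℝ × ℝ → ℝ} (hf : ContDiff ℝ 2 f) (h0 : ∀ z : ℝ × ℝ, Real.cos z.1 = 0 → f z = 0) :
    ∃ g : ℝ × ℝ → ℝ, ContDiff ℝ 1 g ∧ ∀ z, f z = Real.cos z.1 * g z := by
  have hf' : ContDiff ℝ 2 (fun z : ℝ × ℝ => f (z.1 - Real.pi / 2, z.2)) :=
    hf.comp (by fun_prop)
  obtain ⟨g, hg, he⟩ := divsin hf' (fun z hz => h0 _ (by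
    simp only
    rw [Real.cos_sub_pi_div_two]
    exact hz))
  refine ⟨fun z => g (z.1 + Real.pi / 2, z.2), hg.comp (by fun_prop), fun z => ?_⟩
  have := he (z.1 + Real.pi / 2, z.2)
  simp only [add_sub_cancel_right] at this
  rw [Real.sin_add_pi_div_two] at this
  exact this

theorem goalDIV : Pool.Agent.Helper61.QT.G_DIV := by
  intro f hf
  have hsw : ContDiff ℝ 2 (fun z : ℝ × ℝ => f (z.2, z.1)) := hf.comp (by fun_prop)
  refine ⟨divsin hf, divcos hf, fun h0 => ?_, fun h0 => ?_⟩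
  · obtain ⟨g, hg, he⟩ := divsin hsw (fun z hz => h0 (z.2, z.1) hz)
    refine ⟨fun z => g (z.2, z.1), hg.comp (by fun_prop), fun z => ?_⟩
    exact he (z.2, z.1)
  · obtain ⟨g, hg, he⟩ := divcos hsw (fun z hz => h0 (z.2, z.1) hz)
    refine ⟨fun z => g (z.2, z.1), hg.comp (by fun_prop), fun z => ?_⟩
    exact he (z.2, z.1)

end Pool.Agent.Helper97.QT
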